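import Pool.Agent.Lib_helper84.PLH.S4W
import Pool.Agent.Lib_helper4.PluriG.Main

/-!
# The Aaronson-Ambainis inequality for functions which are pluriharmonic in groups of variables

`f : {-1,1}^n x {-1,1}^n -> [-1,1]`, the pairs `(x_i, y_i)` are put into `m` groups by
`g : Fin n -> Fin m`, and `f` is, for fixed values of the pairs outside a group, the real part of a
polynomial of degree at most one in each of the variables `z_i = x_i + i y_i` of the group. So
`f = Re sum_u sum_S c_{u,S} prod_{i in S} (x_i + i u_{g(i)} y_i)`, `u` a vector of `m` signs. If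
every monomial meets at most `k+1` groups, the Aaronson-Ambainis inequality holds with a loss which
is exponential only in `k`. One group (`k = 0`): discrete pluriharmonic functions of any degree.
One pair in each group: every function is covered, with `k + 1` its degree.

Proof.
* (BQ), `Lib_helper84/PLH/{Poly,Four,Step,One,BQ}`: for multi-affine `h, h'` on `{1,i,-1,-i}^n`:
  `|E h conj h'| <= (E |h'|^(9/7))^(7/9) (E |h|^4)^(1/4)`, by induction on `n`: for `h = A + z B`,
  `h' = C + z D` one has `E h conj h' = E_z E (l_z A + z conj l_z B) conj h'(z,.)` for all weights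
  `l_z = 1 + e z^2 - conj b conj z`, and `b`, `e` are chosen from the moments
  `E (|A|^2+|B|^2) conj A B`, `E (conj A B)^2`.
* Contraction, `Semi`, `Contr` (scalar inequalities: `Lib_helper80/PLH`, `Lib_helper25/PLH`): if `c`
  does not depend on a group of variables, `a` is analytic and `b` antianalytic in it, both of mean
  zero, then `E |c + a/32|^q + E |c + b/32|^q <= 2 E |c + a + b|^q` for `q = 9/7` and `q = 4`.
  The proof iterates a superharmonic function on the four points over the variables of the group.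
* `Group`, `Proc`, `S4G`: after all groups are processed with random signs, (BQ) applies for each
  choice of the signs; the mean square is a sum of nonnegative functions of at most `k` signs.
  Result: `(E |H|^2)^(19/20) <= 2^(20 k) E |H|` for complex `|H| <= 1` in the class.
* Application (`Lib_helper4/PluriG`): `H = D_{x_j} f - i D_{y_j} f` is analytic in the group of `j`,
  and `sum_j (|D_{x_j} f| + |D_{y_j} f|) <= 2 d^2` at every point by the inequality of Markov.
-/

set_option autoImplicit false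

namespace Pool.Agent.Results.MP_cf5f8b_an.GroupPluriharmonic

open Finset

/-- **Aaronson-Ambainis for functions on the cube which are pluriharmonic in groups of variables.**
Let `f : {-1,1}^(2n) → [-1,1]` be the real part of
`∑_u ∑_S c_{u,S} ∏_{i ∈ S} (x_i + i u_{g(i)} y_i)`, where `u` runs over the sign vectors indexed by the
`m` groups and `g i` is the group of the pair `(x_i, y_i)` (`x_i` is the variable `Sum.inl i`, `y_i`
is `Sum.inr i`, signs are `(-1)^b`, `b : Bool`). Let `J` be a nonempty set of indices such that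
`|S ∩ J| ≤ d`, and `S` meets at most `k + 1` groups if it meets `J`, whenever `c_{u,S} ≠ 0`. With the
usual influences `Inf`, and with `V` the sum of the squares of the Fourier coefficients of `f` at
the sets which contain one of the variables `x_j`, `y_j`, `j ∈ J`,

* `∑_{j ∈ J} (Inf_{x_j} + Inf_{y_j})^(19/20) ≤ 2 · 2^(20 k) d^2`;
* some `j ∈ J` has `Inf_{x_j} + Inf_{y_j} ≥ (V / (2 · 2^(20 k) d^2))^20`;
* `V` is the variance of `f` if `J` is the set of all indices. -/
theorem result (n m : ℕ) (g : Fin n → Fin m) (k : ℕ)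
    (c : (Fin m → Bool) → Finset (Fin n) → ℂ) (f : (Fin n ⊕ Fin n → Bool) → ℝ)
    (hf : ∀ v, f v = (∑ u, ∑ S, c u S * ∏ i ∈ S, ((-1) ^ (v (Sum.inl i)).toNat +
      (-1) ^ (u (g i)).toNat * (-1) ^ (v (Sum.inr i)).toNat * Complex.I)).re)
    (hbd : ∀ v, |f v| ≤ 1) (J : Finset (Fin n)) (hJ : J.Nonempty) (d : ℕ)
    (hdeg : ∀ u S, c u S ≠ 0 → (S ∩ J).card ≤ d)
    (hk : ∀ u S, c u S ≠ 0 → (S ∩ J).Nonempty → (S.image g).card ≤ k + 1)
    (Inf : Fin n ⊕ Fin n → ℝ)
    (hInf : ∀ k, Inf k =
      ((2 : ℝ) ^ (2 * n))⁻¹ * ∑ v, ((f v - f (Function.update v k (!v k))) / 2) ^ 2)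
    (V : ℝ)
    (hV : V = ∑ W with (W ∩ J.disjSum J).Nonempty,
      (((2 : ℝ) ^ (2 * n))⁻¹ * ∑ v, f v * ∏ k ∈ W, (-1 : ℝ) ^ (v k).toNat) ^ 2) :
    ∑ j ∈ J, (Inf (Sum.inl j) + Inf (Sum.inr j)) ^ (19/20 : ℝ) ≤
      2 * 2 ^ (20 * k) * (d : ℝ) ^ 2 ∧
    (∃ j ∈ J, (V / (2 * 2 ^ (20 * k) * (d : ℝ) ^ 2)) ^ 20 ≤
      Inf (Sum.inl j) + Inf (Sum.inr j)) ∧
    (J = univ → V = ((2 : ℝ) ^ (2 * n))⁻¹ * ∑ v, f v ^ 2 -
      (((2 : ℝ) ^ (2 * n))⁻¹ * ∑ v, f v) ^ 2) :=
  Pool.Agent.Lib_helper4.PluriG.fin
    (fun _ _ g k i0 c h1 h2 hb => Pool.Agent.PLH.s4g g k i0 c h1 h2 hb)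
    n m g k c f hf hbd J hJ d hdeg hk Inf hInf V hV

end Pool.Agent.Results.MP_cf5f8b_an.GroupPluriharmonic
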