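import Pool.Agent.Lib_helper4.Pluri.Fin

/-!
# The Aaronson-Ambainis inequality for discrete pluriharmonic functions on the cube

`f : {-1,1}^n x {-1,1}^n -> [-1,1]` is *discrete pluriharmonic* if
`f(x,y) = Re sum_S c_S prod_{i in S} (x_i + i y_i)` with complex coefficients `c_S`, i.e. `f` is the
real part of a polynomial of degree at most one in each of `z_i = x_i + i y_i`. Boundedness is only
assumed at the points of the cube.

Proof.
* (BQ), `Lib_helper49/Pluri/BQ.lean`: for multi-affine `g, h` on `{1,-1,i,-i}^n`: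
  `|E g conj h| <= (E |h|^(9/7))^(7/9) (E |g|^4)^(1/4)`, by induction on `n`. For `g = A + z B`,
  `h = C + z D`: `E g conj h = E_z E (l_z A + z conj l_z B) conj h(z,.)` for every weight
  `l_z = 1 + e z^2 - conj b conj z` (`e` real, `b` complex); `b`, `e` are chosen from the moments
  `E (|A|^2+|B|^2) conj A B` and `E (conj A B)^2` so that the mean over the four values of `z` of
  `(E |l_z A + z conj l_z B|^4)^(9/8)` is at most `(E |g|^4)^(9/8)` (`Four.lean`, `FourC.lean`).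
* (S4), `S4.lean`: hence `(E |g|^2)^(19/20) <= E |g|` if moreover `|g| <= 1`.
* The derivatives `F_j = dF/dz_j` satisfy `|F_j| <= 1` on the cube,
  `E |F_j|^2 = Inf_{x_j} + Inf_{y_j}`, and `sum_j |F_j| <= 2 d^2` at every point by Markov's
  inequality (`Lib_helper4/Pluri`).
-/

set_option autoImplicit false

namespace Pool.Agent.Results.MP_cf5f8b_an.PluriharmonicAA

open Finset

/-- **Aaronson-Ambainis for discrete pluriharmonic functions on the cube.**
Let `f : {-1,1}^(2n) → [-1,1]` be the real part of a multi-affine polynomial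
`∑_S c_S ∏_{i ∈ S} z_i`, `z_i = x_i + i y_i` (the variable `x_i` is `Sum.inl i`, `y_i` is
`Sum.inr i`, signs are `(-1)^b`, `b : Bool`). Let `J` be a nonempty set of indices such that
`|S ∩ J| ≤ d` whenever `c_S ≠ 0` (for `J = {1,…,n}` this says that `f` has Fourier degree at most
`d`). With the usual influences `Inf`, and with `V` the sum of the squares of the Fourier
coefficients of `f` at the sets which contain one of the variables `x_j`, `y_j`, `j ∈ J`,

* `∑_{j ∈ J} (Inf_{x_j} + Inf_{y_j})^(19/20) ≤ 2 d^2`;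
* some `j ∈ J` has `Inf_{x_j} + Inf_{y_j} ≥ (V / (2 d^2))^20`;
* `V` is the variance of `f` if `J` is the set of all indices. -/
theorem result (n : ℕ) (c : Finset (Fin n) → ℂ) (f : (Fin n ⊕ Fin n → Bool) → ℝ)
    (hf : ∀ v, f v = (∑ S, c S * ∏ i ∈ S, ((-1) ^ (v (Sum.inl i)).toNat +
      (-1) ^ (v (Sum.inr i)).toNat * Complex.I)).re)
    (hbd : ∀ v, |f v| ≤ 1)
    (J : Finset (Fin n)) (hJ : J.Nonempty) (d : ℕ) (hdeg : ∀ S, c S ≠ 0 → (S ∩ J).card ≤ d)
    (Inf : Fin n ⊕ Fin n → ℝ)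
    (hInf : ∀ k, Inf k =
      ((2 : ℝ) ^ (2 * n))⁻¹ * ∑ v, ((f v - f (Function.update v k (!v k))) / 2) ^ 2)
    (V : ℝ)
    (hV : V = ∑ W with (W ∩ J.disjSum J).Nonempty,
      (((2 : ℝ) ^ (2 * n))⁻¹ * ∑ v, f v * ∏ k ∈ W, (-1 : ℝ) ^ (v k).toNat) ^ 2) :
    ∑ j ∈ J, (Inf (Sum.inl j) + Inf (Sum.inr j)) ^ (19/20 : ℝ) ≤ 2 * (d : ℝ) ^ 2 ∧
    (∃ j ∈ J, (V / (2 * (d : ℝ) ^ 2)) ^ 20 ≤ Inf (Sum.inl j) + Inf (Sum.inr j)) ∧
    (J = univ → V = ((2 : ℝ) ^ (2 * n))⁻¹ * ∑ v, f v ^ 2 -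
      (((2 : ℝ) ^ (2 * n))⁻¹ * ∑ v, f v) ^ 2) :=
  Pool.Agent.Lib_helper4.Pluri.fin n c f hf hbd J hJ d hdeg Inf hInf V hV

end Pool.Agent.Results.MP_cf5f8b_an.PluriharmonicAA
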