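import Pool.Agent.Lib_helper84.TAA.Main
import Pool.Agent.Lib_helper84.TAA.OneParam
import Pool.Agent.Lib_helper6.TAA.BernIm

/-!
# The Aaronson-Ambainis inequality for functions whose pluriharmonic extension is bounded on the torus

For `f(z) = sum_S c_S z^S` (`z^S = prod_{i in S} z_i`) with `|Re f(z)| <= 1` for all `z` in the torus
`T^n`, some variable has influence at least `(2 Var / (pi deg))^8`; more generally for every set `J`
of variables such that no monomial contains more than `d` of them, the influences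
`Inf_j = sum_{S contains j} |c_S|^2` satisfy `sum_{j in J} Inf_j^(7/8) <= (pi/2) d`, hence some `j` in
`J` has `Inf_j >= (2 V_J / (pi d))^8`, `V_J = sum_{S meets J} |c_S|^2`.
For `d = 1` (block-multilinear forms, `J` a block) the bound is free of the degree.

Proof.
* (S*): for multi-affine `g, h` on `T^n`: `|<g,h>|^(7/8) <= |h|_1^(7/8) |g|_1^(1/8) |g|_oo^(3/4)`,
  by induction on `n`: the induction hypothesis is used for all pairs `(z, tau(z))` of values of the
  last variables of `h` and `g`, `tau` a Moebius map or the conjugate of one (`Star`, `Moeb`,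
  `OneParam`). With `h = g`: `|g|_2^(7/4) <= |g|_1` if `|g| <= 1`.
* Bernstein's inequality on the torus for imaginary parts (`BernIm`), and the mean of the modulus of
  `z_j d_j f` is `pi/2` times the mean of `|Im z_j d_j f|` (`ImMean`).
-/

namespace Pool.Agent.Results.MP_cf5f8b_an.TorusAA

open Pool.Agent.TAA

/-- **Aaronson-Ambainis on the polytorus.** Let `f(z) = ∑_S c_S ∏_{i ∈ S} z_i` have complex
coefficients and `|Re f(z)| ≤ 1` whenever all `|z_i| = 1`, and let `J` be a nonempty set of variables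
such that `|S ∩ J| ≤ d` whenever `c_S ≠ 0`.  Put `Inf_j = ∑_{S ∋ j} |c_S|^2` and
`V = ∑_{S ∩ J ≠ ∅} |c_S|^2`. Then `∑_{j ∈ J} Inf_j^(7/8) ≤ (π/2) d`, and some `j ∈ J` has
`Inf_j ≥ (V / ((π/2) d))^8`. -/
theorem result (n : ℕ) (c : Finset (Fin n) → ℂ) (J : Finset (Fin n)) (hJ : J.Nonempty) (d : ℕ)
    (hdeg : ∀ S, c S ≠ 0 → (S ∩ J).card ≤ d)
    (hbd : ∀ z : Fin n → ℂ, (∀ i, ‖z i‖ = 1) → |(∑ S, c S * ∏ i ∈ S, z i).re| ≤ 1) :
    (∑ j ∈ J, (∑ S with j ∈ S, ‖c S‖ ^ 2) ^ (7/8 : ℝ) ≤ Real.pi / 2 * d) ∧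
    ∃ j ∈ J, ((∑ S with (S ∩ J).Nonempty, ‖c S‖ ^ 2) / (Real.pi / 2 * d)) ^ 8 ≤
      ∑ S with j ∈ S, ‖c S‖ ^ 2 := by
  have h1 := sum_of (e := 1/8) (by norm_num) (by norm_num)
    (mc_of_op (by norm_num) (by norm_num) op8) c J d hbd
    (fun z hz => bern_im c J d hdeg hbd z hz)
  refine ⟨?_, ?_⟩
  · have e7 : (1 - 1/8 : ℝ) = 7/8 := by norm_num
    rw [e7] at h1
    exact h1
  · obtain ⟨j, hj, h⟩ := max_of (e := 1/8) (by norm_num) (by norm_num) c J hJ d
      (Nat.cast_nonneg d) h1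
    refine ⟨j, hj, ?_⟩
    have e8 : (1 / (1/8) : ℝ) = ((8 : ℕ) : ℝ) := by norm_num
    rw [e8, Real.rpow_natCast] at h
    exact h

end Pool.Agent.Results.MP_cf5f8b_an.TorusAA
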